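import Mathlib

/-!
# Translative covering of the unit square by rectangles of total area 3
-/

set_option autoImplicit false

namespace Pool.Agent.Results.MP_6800d9_co.AreaThreeCovers

open scoped ENNReal

/-- The closed axis-parallel rectangle `[0, a] × [0, b]` of width `a` and height `b`. -/
def rect (a b : ℝ) : Set (ℝ × ℝ) := Set.Icc 0 a ×ˢ Set.Icc 0 b

/-- The rectangles of widths `a i` and heights `b i` cover the unit square by translates. -/
def CoversUnitSquare {ι : Type} (a b : ι → ℝ) : Prop :=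
  ∃ v : ι → ℝ × ℝ, rect 1 1 ⊆ ⋃ i, (fun p => p + v i) '' rect (a i) (b i)

/-- a finite set of segments covers a segment of the total length -/
theorem cover_row {ι : Type} [DecidableEq ι] (a : ι → ℝ) (R : Finset ι) (hR : R.Nonempty) :
    ∃ x : ι → ℝ, ∀ p : ℝ, 0 ≤ p → p ≤ ∑ i ∈ R, a i → ∃ i ∈ R, x i ≤ p ∧ p ≤ x i + a i := by
  induction hR using Finset.Nonempty.cons_induction with
  | singleton i =>
    refine ⟨fun _ => 0, fun p hp hp' => ⟨i, by simp, hp, ?_⟩⟩
    simpa using hp'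
  | cons i R hi hR ih =>
    obtain ⟨x, hx⟩ := ih
    refine ⟨fun j => if j = i then ∑ k ∈ R, a k else x j, fun p hp hp' => ?_⟩
    rw [Finset.sum_cons] at hp'
    by_cases h : p ≤ ∑ k ∈ R, a k
    · obtain ⟨j, hj, h1, h2⟩ := hx p hp h
      have hji : j ≠ i := fun h => hi (h ▸ hj)
      refine ⟨j, Finset.mem_cons_of_mem hj, ?_⟩
      simp only [if_neg hji]
      exact ⟨h1, h2⟩
    · refine ⟨i, Finset.mem_cons_self _ _, ?_⟩
      simp only [if_true]
      push Not at h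
      exact ⟨h.le, by linarith⟩

/-- the first row: the highest rectangles, as many as are needed for the total width `1` -/
theorem exists_row {ι : Type} [DecidableEq ι] (a b : ι → ℝ) :
    ∀ (n : ℕ) (G : Finset ι), G.card = n → 1 ≤ ∑ i ∈ G, a i →
      ∃ R ⊆ G, ∃ l ∈ R, (∀ i ∈ R, b l ≤ b i) ∧ (∀ i ∈ G \ R, b i ≤ b l) ∧
        ∑ i ∈ R.erase l, a i < 1 ∧ 1 ≤ ∑ i ∈ R, a i := by
  intro n
  induction n with
  | zero =>
    intro G hG h
    rw [Finset.card_eq_zero] at hG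
    subst hG
    simp only [Finset.sum_empty] at h
    linarith
  | succ n ih =>
    intro G hG h
    have hne : G.Nonempty := by
      rw [← Finset.card_pos]
      omega
    obtain ⟨m, hm, hmin⟩ := Finset.exists_min_image G b hne
    by_cases h1 : 1 ≤ ∑ i ∈ G.erase m, a i
    · obtain ⟨R, hRG, l, hl, h2, h3, h4, h5⟩ := ih (G.erase m)
        (by rw [Finset.card_erase_of_mem hm, hG]; rfl) h1
      refine ⟨R, hRG.trans (Finset.erase_subset _ _), l, hl, h2, fun i hi => ?_, h4, h5⟩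
      rw [Finset.mem_sdiff] at hi
      by_cases him : i = m
      · rw [him]
        exact hmin l (Finset.mem_of_mem_erase (hRG hl))
      · exact h3 i (Finset.mem_sdiff.2 ⟨Finset.mem_erase.2 ⟨him, hi.1⟩, hi.2⟩)
    · push Not at h1
      exact ⟨G, Finset.Subset.refl _, m, hm, hmin, fun i hi => by simp at hi, h1, h⟩

/-- Greedy covering of `[0, 1] × [0, t]` by rows. If all widths are at most `1`, all heights at most
`H` and the total area is at least `H + 2 t`, then the rectangles cover. -/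
theorem cover_strip {ι : Type} [DecidableEq ι] (a b : ι → ℝ) (ha : ∀ i, 0 < a i)
    (hb : ∀ i, 0 < b i) (ha1 : ∀ i, a i ≤ 1) :
    ∀ (n : ℕ) (G : Finset ι), G.card = n → ∀ H t : ℝ, (∀ i ∈ G, b i ≤ H) → 0 < H → 0 ≤ t →
      H + 2 * t ≤ ∑ i ∈ G, a i * b i →
      ∃ v : ι → ℝ × ℝ, ∀ p : ℝ × ℝ, 0 ≤ p.1 → p.1 ≤ 1 → 0 ≤ p.2 → p.2 ≤ t →
        ∃ i ∈ G, (v i).1 ≤ p.1 ∧ p.1 ≤ (v i).1 + a i ∧ (v i).2 ≤ p.2 ∧ p.2 ≤ (v i).2 + b i := by
  intro n
  induction n using Nat.strong_induction_on with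
  | _ n ih =>
    intro G hG H t hGH hH ht harea
    -- the total width is at least one
    have hw : 1 ≤ ∑ i ∈ G, a i := by
      have h1 : ∑ i ∈ G, a i * b i ≤ ∑ i ∈ G, a i * H :=
        Finset.sum_le_sum fun i hi => mul_le_mul_of_nonneg_left (hGH i hi) (ha i).le
      rw [← Finset.sum_mul] at h1
      have h2 : H * 1 ≤ H * ∑ i ∈ G, a i := by linarith
      exact le_of_mul_le_mul_left h2 hH
    obtain ⟨R, hRG, l, hl, h2, h3, h4, h5⟩ := exists_row a b n G hG hw
    obtain ⟨x, hx⟩ := cover_row a R ⟨l, hl⟩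
    have hrow : ∀ p : ℝ × ℝ, 0 ≤ p.1 → p.1 ≤ 1 → 0 ≤ p.2 → p.2 ≤ b l →
        ∃ i ∈ R, x i ≤ p.1 ∧ p.1 ≤ x i + a i ∧ 0 ≤ p.2 ∧ p.2 ≤ 0 + b i := by
      intro p hp1 hp2 hp3 hp4
      obtain ⟨i, hi, h6, h7⟩ := hx p.1 hp1 (hp2.trans h5)
      exact ⟨i, hi, h6, h7, hp3, by linarith [h2 i hi]⟩
    -- area of the row
    have hRarea : ∑ i ∈ R, a i * b i ≤ H + b l := by
      rw [← Finset.add_sum_erase R _ hl]
      have h6 : ∑ i ∈ R.erase l, a i * b i ≤ ∑ i ∈ R.erase l, a i * H :=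
        Finset.sum_le_sum fun i hi =>
          mul_le_mul_of_nonneg_left (hGH i (hRG (Finset.mem_of_mem_erase hi))) (ha i).le
      rw [← Finset.sum_mul] at h6
      have h7 : (∑ i ∈ R.erase l, a i) * H ≤ 1 * H := mul_le_mul_of_nonneg_right h4.le hH.le
      have h8 : a l * b l ≤ 1 * b l := mul_le_mul_of_nonneg_right (ha1 l) (hb l).le
      linarith
    have hsplit : ∑ i ∈ G \ R, a i * b i + ∑ i ∈ R, a i * b i = ∑ i ∈ G, a i * b i :=
      Finset.sum_sdiff hRG
    by_cases htl : t < b l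
    · refine ⟨fun i => (x i, 0), fun p hp1 hp2 hp3 hp4 => ?_⟩
      obtain ⟨i, hi, h6⟩ := hrow p hp1 hp2 hp3 (hp4.trans htl.le)
      exact ⟨i, hRG hi, h6⟩
    · push Not at htl
      have hcard : (G \ R).card < n := by
        rw [← hG]
        exact Finset.card_lt_card (Finset.sdiff_ssubset hRG ⟨l, hl⟩)
      obtain ⟨v, hv⟩ := ih _ hcard (G \ R) rfl (b l) (t - b l) h3 (hb l) (by linarith)
        (by linarith)
      refine ⟨fun i => if i ∈ R then (x i, 0) else ((v i).1, (v i).2 + b l),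
        fun p hp1 hp2 hp3 hp4 => ?_⟩
      by_cases hp : p.2 ≤ b l
      · obtain ⟨i, hi, h6⟩ := hrow p hp1 hp2 hp3 hp
        refine ⟨i, hRG hi, ?_⟩
        simp only [if_pos hi]
        exact h6
      · push Not at hp
        obtain ⟨i, hi, h6, h7, h8, h9⟩ := hv (p.1, p.2 - b l) hp1 hp2 (by simp; linarith)
          (by simp only; linarith)
        rw [Finset.mem_sdiff] at hi
        refine ⟨i, hi.1, ?_⟩
        simp only [if_neg hi.2]
        simp only at h8 h9
        exact ⟨h6, h7, by linarith, by linarith⟩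

/-- the case in which some rectangle has width `1` -/
theorem width_one {ι : Type} (a b : ι → ℝ) (ha : ∀ i, 0 < a i) (hb : ∀ i, 0 < b i)
    (ha1 : ∀ i, a i ≤ 1) (hb1 : ∀ i, b i ≤ 1) (i₀ : ι) (hi₀ : a i₀ = 1)
    (harea : 3 ≤ ∑' i, ENNReal.ofReal (a i * b i)) : CoversUnitSquare a b := by
  classical
  have hlt : ENNReal.ofReal (3 - b i₀) < ∑' i, ENNReal.ofReal (a i * b i) := by
    refine lt_of_lt_of_le ?_ harea
    have : (3 : ℝ≥0∞) = ENNReal.ofReal 3 := by simp
    rw [this]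
    exact (ENNReal.ofReal_lt_ofReal_iff (by norm_num)).2 (by linarith [hb i₀])
  rw [ENNReal.tsum_eq_iSup_sum, lt_iSup_iff] at hlt
  obtain ⟨G, hG⟩ := hlt
  rw [← ENNReal.ofReal_sum_of_nonneg fun i _ => (mul_pos (ha i) (hb i)).le] at hG
  have hG' : 3 - b i₀ < ∑ i ∈ G, a i * b i := by
    refine (ENNReal.ofReal_lt_ofReal_iff_of_nonneg ?_).1 hG
    linarith [hb1 i₀]
  have hG2 : 1 + 2 * (1 - b i₀) ≤ ∑ i ∈ G.erase i₀, a i * b i := by
    by_cases h : i₀ ∈ G
    · rw [← Finset.add_sum_erase G _ h, hi₀] at hG'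
      linarith
    · rw [Finset.erase_eq_of_notMem h]
      linarith [hb i₀]
  obtain ⟨v, hv⟩ := cover_strip a b ha hb ha1 _ (G.erase i₀) rfl 1 (1 - b i₀)
    (fun i _ => hb1 i) one_pos (by linarith [hb1 i₀]) hG2
  refine ⟨fun i => if i = i₀ then (0, 0) else ((v i).1, (v i).2 + b i₀), ?_⟩
  rintro ⟨x, y⟩ ⟨⟨hx0, hx1⟩, ⟨hy0, hy1⟩⟩
  simp only at hx0 hx1 hy0 hy1
  rw [Set.mem_iUnion]
  by_cases hy : y ≤ b i₀
  · refine ⟨i₀, (x, y), ⟨⟨hx0, ?_⟩, ⟨hy0, hy⟩⟩, ?_⟩
    · simpa [hi₀] using hx1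
    · simp
  · push Not at hy
    obtain ⟨i, hi, h1, h2, h3, h4⟩ := hv (x, y - b i₀) hx0 hx1 (by simp; linarith)
      (by simp only; linarith)
    have hne : i ≠ i₀ := Finset.ne_of_mem_erase hi
    simp only at h1 h2 h3 h4
    refine ⟨i, (x - (v i).1, y - (v i).2 - b i₀), ⟨⟨?_, ?_⟩, ⟨?_, ?_⟩⟩, ?_⟩
    · simp only; linarith
    · simp only; linarith
    · simp only; linarith
    · simp only; linarith
    · simp only [if_neg hne, Prod.mk_add_mk]
      ext <;> simp

/-- The answer to the question is yes. Every family (finite or infinite) of axis-parallel rectangles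
of widths `a i` and heights `b i`, all of whose sides have length at most `1`, with some side of
length exactly `1` and of total area at least `3` (in particular of total area `3`) covers the unit
square by translates. -/
theorem result {ι : Type} (a b : ι → ℝ) (ha : ∀ i, 0 < a i ∧ a i ≤ 1) (hb : ∀ i, 0 < b i ∧ b i ≤ 1)
    (hside : ∃ i, a i = 1 ∨ b i = 1) (harea : 3 ≤ ∑' i, ENNReal.ofReal (a i * b i)) :
    CoversUnitSquare a b := by
  obtain ⟨i₀, h | h⟩ := hside
  · exact width_one a b (fun i => (ha i).1) (fun i => (hb i).1) (fun i => (ha i).2)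
      (fun i => (hb i).2) i₀ h harea
  · obtain ⟨v, hv⟩ := width_one b a (fun i => (hb i).1) (fun i => (ha i).1) (fun i => (hb i).2)
      (fun i => (ha i).2) i₀ h (by simpa only [mul_comm] using harea)
    refine ⟨fun i => (v i).swap, ?_⟩
    rintro ⟨x, y⟩ ⟨hx, hy⟩
    have h1 := hv (show (y, x) ∈ rect 1 1 from ⟨hy, hx⟩)
    rw [Set.mem_iUnion] at h1 ⊢
    obtain ⟨i, ⟨⟨p, q⟩, ⟨hp, hq⟩, h2⟩⟩ := h1
    refine ⟨i, (q, p), ⟨hq, hp⟩, ?_⟩
    have h3 := congrArg Prod.swap h2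
    simpa using h3

end Pool.Agent.Results.MP_6800d9_co.AreaThreeCovers
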